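import Mathlib

/-!
# Infinitely many internally self-dual regular polyhedra of type `{p,p}`, `p ≥ 5` odd

For odd `p ≥ 5` and odd `n` we write down three explicit permutations `ρ₀, ρ₁, ρ₂` of the finite
set `(ZMod p → ZMod n) × (ZMod p → ZMod 2)` and prove that they generate a string C-group of
type `{p,p}`, that the duality is inner, and that the order of the group is a multiple of `n`.
-/

namespace Pool.Agent.Results.MP_7f6698_co.InfiniteFamilies

open Equiv

/-- `ρ₀, ρ₁, ρ₂` are the distinguished generators of (the automorphism group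
`⟨ρ₀, ρ₁, ρ₂⟩` of) an abstract regular polyhedron of type `{p, q}`, i.e. a string C-group of
rank 3 (as in the problem: involutions, `(ρ₀ρ₂)² = 1`, intersection property). -/
structure IsRegularPolyhedron {A : Type*} [Group A] (ρ₀ ρ₁ ρ₂ : A) (p q : ℕ) : Prop where
  inv0 : orderOf ρ₀ = 2
  inv1 : orderOf ρ₁ = 2
  inv2 : orderOf ρ₂ = 2
  string : (ρ₀ * ρ₂) ^ 2 = 1
  inter : Subgroup.closure {ρ₀, ρ₁} ⊓ Subgroup.closure {ρ₁, ρ₂} = Subgroup.closure {ρ₁}
  ord01 : orderOf (ρ₀ * ρ₁) = p
  ord12 : orderOf (ρ₁ * ρ₂) = q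

/-- The polyhedron is internally self-dual: some element `g` of the group `⟨ρ₀, ρ₁, ρ₂⟩`
satisfies `g⁻¹ ρᵢ g = ρ₂₋ᵢ`. -/
def IsInternallySelfDual {A : Type*} [Group A] (ρ₀ ρ₁ ρ₂ : A) : Prop :=
  ∃ g ∈ Subgroup.closure ({ρ₀, ρ₁, ρ₂} : Set A),
    g⁻¹ * ρ₀ * g = ρ₂ ∧ g⁻¹ * ρ₁ * g = ρ₁ ∧ g⁻¹ * ρ₂ * g = ρ₀

variable (p n : ℕ)

/-- The set on which the groups act. -/
abbrev X : Type := (ZMod p → ZMod n) × (ZMod p → ZMod 2)

/-- First mirror of the (extended) group. -/
def f0 (x : X p n) : X p n :=
  (fun k => if k = 2 then 1 - x.1 k else if k = 0 then -1 - x.1 k else x.1 k,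
   fun i => if i = 1 then 1 + x.2 i else x.2 i)

/-- Second mirror. -/
def f1 (x : X p n) : X p n := (fun k => - x.1 (3 - k), fun i => x.2 (3 - i))

/-- Third mirror. -/
def f2 (x : X p n) : X p n := (fun k => - x.1 (2 - k), fun i => x.2 (2 - i))

/-- central translation of the second component -/
def fz (x : X p n) : X p n := (x.1, fun i => 1 + x.2 i)

variable {p n}

lemma f0_inv : Function.Involutive (f0 p n) := by
  intro x
  refine Prod.ext (funext fun k => ?_) (funext fun i => ?_)
  · simp only [f0]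
    split_ifs <;> ring
  · simp only [f0]
    split_ifs
    · rw [← add_assoc]
      have : (1 : ZMod 2) + 1 = 0 := by decide
      rw [this, zero_add]
    · rfl

lemma f1_inv : Function.Involutive (f1 p n) := by
  intro x
  refine Prod.ext (funext fun k => ?_) (funext fun i => ?_)
  · simp [f1]
  · simp [f1]

lemma f2_inv : Function.Involutive (f2 p n) := by
  intro x
  refine Prod.ext (funext fun k => ?_) (funext fun i => ?_)
  · simp [f2]
  · simp [f2]

lemma fz_inv : Function.Involutive (fz p n) := by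
  intro x
  refine Prod.ext (funext fun k => ?_) (funext fun i => ?_)
  · simp [fz]
  · simp only [fz]
    rw [← add_assoc]
    have : (1 : ZMod 2) + 1 = 0 := by decide
    rw [this, zero_add]

variable (p n)

/-- First mirror, as a permutation; it will realise the duality. -/
def s0 : Perm (X p n) := (f0_inv (p := p) (n := n)).toPerm
/-- Second mirror, as a permutation. -/
def s1 : Perm (X p n) := (f1_inv (p := p) (n := n)).toPerm
/-- Third mirror, as a permutation. -/
def s2 : Perm (X p n) := (f2_inv (p := p) (n := n)).toPerm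
/-- The central element. -/
def sz : Perm (X p n) := (fz_inv (p := p) (n := n)).toPerm

/-- The three distinguished generators. -/
def ρ0 : Perm (X p n) := s0 p n * s1 p n * s0 p n
/-- The three distinguished generators. -/
def ρ1 : Perm (X p n) := s2 p n
/-- The three distinguished generators. -/
def ρ2 : Perm (X p n) := s1 p n

/-- The group `⟨ρ₀, ρ₁, ρ₂⟩`. -/
def Γ : Subgroup (Perm (X p n)) := Subgroup.closure {ρ0 p n, ρ1 p n, ρ2 p n}

variable {p n}

lemma s0_apply (x : X p n) : s0 p n x = f0 p n x := rfl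
lemma s1_apply (x : X p n) : s1 p n x = f1 p n x := rfl
lemma s2_apply (x : X p n) : s2 p n x = f2 p n x := rfl
lemma sz_apply (x : X p n) : sz p n x = fz p n x := rfl

lemma s0_sq : s0 p n * s0 p n = 1 := by ext1 x; exact f0_inv x
lemma s1_sq : s1 p n * s1 p n = 1 := by ext1 x; exact f1_inv x
lemma s2_sq : s2 p n * s2 p n = 1 := by ext1 x; exact f2_inv x
lemma sz_sq : sz p n * sz p n = 1 := by ext1 x; exact fz_inv x

/-! ### small residues are distinct -/

lemma cast_inj' (hp : 5 ≤ p) {a b : ℕ} (ha : a < 5) (hb : b < 5) (h : (a : ZMod p) = (b : ZMod p)) :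
    a = b := by
  have h1 := (ZMod.natCast_eq_natCast_iff' a b p).1 h
  rwa [Nat.mod_eq_of_lt (by omega), Nat.mod_eq_of_lt (by omega)] at h1

lemma ne01 (hp : 5 ≤ p) : (0 : ZMod p) ≠ 1 := fun h => by
  have := cast_inj' hp (a := 0) (b := 1) (by norm_num) (by norm_num) (by simpa using h)
  omega
lemma ne02 (hp : 5 ≤ p) : (0 : ZMod p) ≠ 2 := fun h => by
  have := cast_inj' hp (a := 0) (b := 2) (by norm_num) (by norm_num) (by simpa using h)
  omega
lemma ne03 (hp : 5 ≤ p) : (0 : ZMod p) ≠ 3 := fun h => by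
  have := cast_inj' hp (a := 0) (b := 3) (by norm_num) (by norm_num) (by simpa using h)
  omega
lemma ne12 (hp : 5 ≤ p) : (1 : ZMod p) ≠ 2 := fun h => by
  have := cast_inj' hp (a := 1) (b := 2) (by norm_num) (by norm_num) (by simpa using h)
  omega
lemma ne13 (hp : 5 ≤ p) : (1 : ZMod p) ≠ 3 := fun h => by
  have := cast_inj' hp (a := 1) (b := 3) (by norm_num) (by norm_num) (by simpa using h)
  omega
lemma ne23 (hp : 5 ≤ p) : (2 : ZMod p) ≠ 3 := fun h => by
  have := cast_inj' hp (a := 2) (b := 3) (by norm_num) (by norm_num) (by simpa using h)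
  omega

/-! ### relations -/

lemma comm02 (hp : 5 ≤ p) : s0 p n * s2 p n = s2 p n * s0 p n := by
  have h02 := ne02 hp
  ext1 x
  simp only [Perm.mul_apply, s0_apply, s2_apply]
  refine Prod.ext (funext fun k => ?_) (funext fun i => ?_)
  · simp only [f0, f2]
    by_cases h2 : k = 2
    · subst h2
      simp [h02]
      ring
    · by_cases h0 : k = 0
      · subst h0
        simp [h02]
        ring
      · have e1 : ¬ (2 - k = 2) := fun h => h0 (by linear_combination -h)
        have e2 : ¬ (2 - k = 0) := fun h => h2 (by linear_combination -h)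
        simp [h2, h0, e1, e2]
  · simp only [f0, f2]
    by_cases h1 : i = 1
    · subst h1
      have : (2 : ZMod p) - 1 = 1 := by ring
      simp [this]
    · have e1 : ¬ (2 - i = 1) := fun h => h1 (by linear_combination -h)
      simp [h1, e1]

lemma comm0101 (hp : 5 ≤ p) :
    s0 p n * (s1 p n * s0 p n * s1 p n) = (s1 p n * s0 p n * s1 p n) * s0 p n := by
  have h01 := ne01 hp
  have h02 := ne02 hp
  have h03 := ne03 hp
  have h12 := ne12 hp
  have h13 := ne13 hp
  have h23 := ne23 hp
  ext1 x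
  simp only [Perm.mul_apply, s0_apply, s1_apply]
  refine Prod.ext (funext fun k => ?_) (funext fun i => ?_)
  · simp only [f0, f1]
    by_cases h2 : k = 2
    · subst h2
      have e : (3 : ZMod p) - 2 = 1 := by ring
      have e' : (3 : ZMod p) - 1 = 2 := by ring
      simp [e, e', h12, h01.symm]
    · by_cases h0 : k = 0
      · subst h0
        simp [h02, h03.symm, h23.symm]
        ring
      · by_cases h1 : k = 1
        · subst h1
          have e : (3 : ZMod p) - 1 = 2 := by ring
          have e' : (3 : ZMod p) - 2 = 1 := by ring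
          simp [e, e', h12, h01.symm]
        · by_cases h3 : k = 3
          · subst h3
            simp [h02, h03.symm, h23.symm]
          · have e1 : ¬ (3 - k = 2) := fun h => h1 (by linear_combination -h)
            have e2 : ¬ (3 - k = 0) := fun h => h3 (by linear_combination -h)
            simp [h2, h0, e1, e2]
  · simp only [f0, f1]
    by_cases h1 : i = 1
    · subst h1
      have e : (3 : ZMod p) - 1 = 2 := by ring
      have e' : (3 : ZMod p) - 2 = 1 := by ring
      simp [e, e', h12.symm]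
    · by_cases h2 : i = 2
      · subst h2
        have e : (3 : ZMod p) - 2 = 1 := by ring
        have e' : (3 : ZMod p) - 1 = 2 := by ring
        simp [e, e', h12.symm]
      · have e1 : ¬ (3 - i = 1) := fun h => h2 (by linear_combination -h)
        simp [h1, e1]

lemma commz0 : sz p n * s0 p n = s0 p n * sz p n := by
  ext1 x
  simp only [Perm.mul_apply, s0_apply, sz_apply]
  refine Prod.ext (funext fun k => ?_) (funext fun i => ?_)
  · simp only [f0, fz]
  · simp only [f0, fz]
    split_ifs <;> rfl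

lemma commz1 : sz p n * s1 p n = s1 p n * sz p n := by
  ext1 x
  simp only [Perm.mul_apply, s1_apply, sz_apply]
  rfl

lemma commz2 : sz p n * s2 p n = s2 p n * sz p n := by
  ext1 x
  simp only [Perm.mul_apply, s2_apply, sz_apply]
  rfl

/-! ### the rotation `s1 s2` -/

lemma r_apply (x : X p n) :
    (s1 p n * s2 p n) x = (fun k => x.1 (k - 1), fun i => x.2 (i - 1)) := by
  simp only [Perm.mul_apply, s1_apply, s2_apply]
  refine Prod.ext (funext fun k => ?_) (funext fun i => ?_)
  · simp only [f1, f2, neg_neg]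
    ring_nf
  · simp only [f1, f2]
    ring_nf

lemma r_pow_apply (m : ℕ) (x : X p n) :
    ((s1 p n * s2 p n) ^ m) x = (fun k => x.1 (k - m), fun i => x.2 (i - m)) := by
  induction m with
  | zero => simp
  | succ m ih =>
    rw [pow_succ', Perm.mul_apply, ih, r_apply]
    refine Prod.ext (funext fun k => ?_) (funext fun i => ?_)
    · simp only
      push_cast; ring_nf
    · simp only
      push_cast; ring_nf

lemma r_pow_eq_one_iff (m : ℕ) : (s1 p n * s2 p n) ^ m = 1 ↔ p ∣ m := by
  constructor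
  · intro h
    have h1 := congrArg (fun g : Perm (X p n) => (g (0, Pi.single 0 1)).2 (m : ZMod p)) h
    simp only [r_pow_apply, Perm.one_apply, sub_self, Pi.single_eq_same] at h1
    by_contra hc
    have hm : (m : ZMod p) ≠ 0 := by
      intro h0
      exact hc ((ZMod.natCast_eq_zero_iff m p).1 h0)
    rw [Pi.single_eq_of_ne hm] at h1
    exact absurd h1 (by decide)
  · rintro ⟨c, rfl⟩
    ext1 x
    rw [r_pow_apply]
    simp

lemma orderOf_r : orderOf (s1 p n * s2 p n) = p := by
  refine Nat.dvd_antisymm ?_ ?_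
  · exact orderOf_dvd_of_pow_eq_one ((r_pow_eq_one_iff p).2 dvd_rfl)
  · exact (r_pow_eq_one_iff _).1 (pow_orderOf_eq_one _)

lemma s1_ne (hp : 5 ≤ p) : s1 p n ≠ 1 := by
  intro h
  have h1 := congrArg (fun g : Perm (X p n) => (g (0, Pi.single 1 1)).2 (2 : ZMod p)) h
  have e : (3 : ZMod p) - 2 = 1 := by ring
  simp only [s1_apply, f1, Perm.one_apply, e, Pi.single_eq_same] at h1
  rw [Pi.single_eq_of_ne (ne12 hp).symm] at h1
  exact absurd h1 (by decide)

lemma s2_ne (hp : 5 ≤ p) : s2 p n ≠ 1 := by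
  intro h
  have h1 := congrArg (fun g : Perm (X p n) => (g (0, Pi.single 0 1)).2 (2 : ZMod p)) h
  simp only [s2_apply, f2, Perm.one_apply, sub_self, Pi.single_eq_same] at h1
  rw [Pi.single_eq_of_ne (ne02 hp).symm] at h1
  exact absurd h1 (by decide)

lemma orderOf_s1 (hp : 5 ≤ p) : orderOf (s1 p n) = 2 :=
  orderOf_eq_prime (by rw [pow_two]; exact s1_sq) (s1_ne hp)

lemma orderOf_s2 (hp : 5 ≤ p) : orderOf (s2 p n) = 2 :=
  orderOf_eq_prime (by rw [pow_two]; exact s2_sq) (s2_ne hp)


/-! ### the Petrie element `c = s0 s1 s2` -/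

/-- the Petrie element -/
def c (p n : ℕ) : Perm (X p n) := s0 p n * (s1 p n * s2 p n)

/-- sign of an element of `ZMod 2` in `ZMod n` -/
def sg (n : ℕ) (a : ZMod 2) : ZMod n := if a = 0 then 1 else -1

lemma zmod2_cases (a : ZMod 2) : a = 0 ∨ a = 1 := by
  fin_cases a
  · left; rfl
  · right; rfl

lemma sg_add (a b : ZMod 2) : sg n (a + b) = sg n a * sg n b := by
  have h11 : (1 : ZMod 2) + 1 = 0 := by decide
  rcases zmod2_cases a with rfl | rfl <;> rcases zmod2_cases b with rfl | rfl <;>
    simp [sg, h11]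

/-- indicator of `1` -/
def e (p : ℕ) (i : ZMod p) : ZMod 2 := if i = 1 then 1 else 0

/-- `F m i = #{ j < m : i - j = 1 }` modulo 2. -/
def F (p m : ℕ) (i : ZMod p) : ZMod 2 := ∑ j ∈ Finset.range m, e p (i - (j : ZMod p))

lemma F_succ (m : ℕ) (i : ZMod p) : F p (m + 1) i = e p i + F p m (i - 1) := by
  unfold F
  rw [Finset.sum_range_succ', add_comm]
  congr 1
  · simp
  · refine Finset.sum_congr rfl fun j _ => ?_
    congr 1
    push_cast
    ring

lemma F_self (hp : 5 ≤ p) (i : ZMod p) : F p p i = 1 := by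
  have : NeZero p := ⟨by omega⟩
  unfold F
  rw [Finset.sum_eq_single (i - 1).val]
  · simp [e]
  · intro j hj hne
    unfold e
    rw [if_neg]
    intro h
    apply hne
    have h1 : (j : ZMod p) = i - 1 := by linear_combination -h
    have h2 := congrArg ZMod.val h1
    rw [ZMod.val_natCast, Nat.mod_eq_of_lt (Finset.mem_range.1 hj)] at h2
    exact h2
  · intro h
    exact absurd (Finset.mem_range.2 (ZMod.val_lt _)) h

lemma c_apply (hp : 5 ≤ p) (x : X p n) :
    c p n x = (fun k => (if k = 2 then 1 else if k = 0 then -1 else 0) +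
        sg n (e p (k - 1) + e p (k + 1)) * x.1 (k - 1),
      fun i => e p i + x.2 (i - 1)) := by
  have h02 := ne02 hp
  unfold c
  rw [Perm.mul_apply, r_apply, s0_apply]
  refine Prod.ext (funext fun k => ?_) (funext fun i => ?_)
  · simp only [f0]
    by_cases h2 : k = 2
    · subst h2
      have e1 : (2 : ZMod p) - 1 = 1 := by ring
      have e2 : ¬ ((2 : ZMod p) + 1 = 1) := fun h => h02 (by linear_combination -h)
      simp [e, e1, e2, sg]
      ring
    · by_cases h0 : k = 0
      · subst h0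
        have e2 : ¬ ((-1 : ZMod p) = 1) := fun h => h02 (by linear_combination h)
        simp [h02, e, e2, sg]
        ring
      · have e1 : ¬ (k - 1 = 1) := fun h => h2 (by linear_combination h)
        have e2 : ¬ (k + 1 = 1) := fun h => h0 (by linear_combination h)
        simp [h2, h0, e, e2, e1, sg]
  · simp only [f0]
    by_cases h1 : i = 1
    · subst h1; simp [e]
    · simp [e, h1]

lemma c_pow_apply (hp : 5 ≤ p) (m : ℕ) : ∃ v : ZMod p → ZMod n, ∀ x : X p n,
    (c p n ^ m) x = (fun k => v k + sg n (F p m (k - 1) + F p m (k + 1)) * x.1 (k - m),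
      fun i => F p m i + x.2 (i - m)) := by
  induction m with
  | zero =>
    refine ⟨0, fun x => ?_⟩
    simp [F, sg]
  | succ m ih =>
    obtain ⟨v, hv⟩ := ih
    refine ⟨fun k => (if k = 2 then 1 else if k = 0 then -1 else 0) +
        sg n (e p (k - 1) + e p (k + 1)) * v (k - 1), fun x => ?_⟩
    rw [pow_succ', Perm.mul_apply, hv, c_apply hp]
    refine Prod.ext (funext fun k => ?_) (funext fun i => ?_)
    · simp only
      have e1 : F p (m + 1) (k - 1) + F p (m + 1) (k + 1)
          = (e p (k - 1) + e p (k + 1)) + (F p m (k - 1 - 1) + F p m (k - 1 + 1)) := by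
        rw [F_succ, F_succ]
        have h1 : k + 1 - 1 = k := by ring
        have h2 : k - 1 + 1 = k := by ring
        rw [h1, h2]
        ring
      rw [e1, sg_add (e p (k - 1) + e p (k + 1))]
      have h3 : k - ((m + 1 : ℕ) : ZMod p) = k - 1 - (m : ZMod p) := by push_cast; ring
      rw [h3]
      ring
    · simp only
      rw [F_succ]
      have h3 : i - ((m + 1 : ℕ) : ZMod p) = i - 1 - (m : ZMod p) := by push_cast; ring
      rw [h3]
      ring

lemma c_pow_p (hp : 5 ≤ p) : ∃ v : ZMod p → ZMod n, ∀ x : X p n,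
    (c p n ^ p) x = (fun k => v k + x.1 k, fun i => 1 + x.2 i) := by
  obtain ⟨v, hv⟩ := c_pow_apply (n := n) hp p
  refine ⟨v, fun x => ?_⟩
  rw [hv]
  refine Prod.ext (funext fun k => ?_) (funext fun i => ?_)
  · simp only [F_self hp]
    have : (1 : ZMod 2) + 1 = 0 := by decide
    rw [this]
    simp [sg]
  · simp only [F_self hp]
    simp

lemma c_pow_p_pow (hp : 5 ≤ p) (m : ℕ) : ∃ v : ZMod p → ZMod n, ∀ x : X p n,
    (c p n ^ p) x = (fun k => v k + x.1 k, fun i => 1 + x.2 i) ∧
    ((c p n ^ p) ^ m) x = (fun k => m * v k + x.1 k, fun i => m + x.2 i) := by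
  obtain ⟨v, hv⟩ := c_pow_p (n := n) hp
  refine ⟨v, fun x => ⟨hv x, ?_⟩⟩
  induction m with
  | zero => simp
  | succ m ih =>
    rw [pow_succ', Perm.mul_apply, ih, hv]
    refine Prod.ext (funext fun k => ?_) (funext fun i => ?_)
    · simp only
      push_cast
      ring
    · simp only
      push_cast
      ring

lemma c_pow_pn (hp : 5 ≤ p) (hn : Odd n) : c p n ^ (p * n) = sz p n := by
  obtain ⟨v, hv⟩ := c_pow_p_pow (n := n) hp n
  ext1 x
  rw [pow_mul, (hv x).2, sz_apply, fz]
  have h1 : (n : ZMod 2) = 1 := by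
    obtain ⟨k, rfl⟩ := hn
    push_cast
    have : (2 : ZMod 2) = 0 := by decide
    rw [this]; ring
  refine Prod.ext (funext fun k => ?_) (funext fun i => ?_)
  · simp
  · simp only [h1]

/-- powers of `c` lie in `Γ` up to `s0` -/
lemma c_pow_mem (hp : 5 ≤ p) (m : ℕ) :
    (Even m → c p n ^ m ∈ Γ p n) ∧ (Odd m → s0 p n * c p n ^ m ∈ Γ p n) := by
  have hr : s1 p n * s2 p n ∈ Γ p n := by
    refine Subgroup.mul_mem _ (Subgroup.subset_closure ?_) (Subgroup.subset_closure ?_)
    · right; right; rfl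
    · right; left; rfl
  have hr' : s0 p n * (s1 p n * s2 p n) * s0 p n ∈ Γ p n := by
    have : s0 p n * (s1 p n * s2 p n) * s0 p n = ρ0 p n * ρ1 p n := by
      unfold ρ0 ρ1
      rw [mul_assoc (s0 p n * s1 p n), comm02 hp]
      simp only [mul_assoc]
    rw [this]
    refine Subgroup.mul_mem _ (Subgroup.subset_closure ?_) (Subgroup.subset_closure ?_)
    · left; rfl
    · right; left; rfl
  induction m with
  | zero => exact ⟨fun _ => by simp, fun h => absurd h (by decide)⟩
  | succ m ih =>
    constructor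
    · intro h
      have hm : Odd m := by
        rcases Nat.even_or_odd m with h' | h'
        · exact absurd (h'.add_one) (Nat.not_odd_iff_even.2 h)
        · exact h'
      have h1 := Subgroup.mul_mem _ hr' (ih.2 hm)
      have h2 : s0 p n * (s1 p n * s2 p n) * s0 p n * (s0 p n * c p n ^ m) = c p n ^ (m + 1) := by
        rw [pow_succ', mul_assoc _ (s0 p n), ← mul_assoc (s0 p n) (s0 p n), s0_sq, one_mul]
        rfl
      rwa [h2] at h1
    · intro h
      have hm : Even m := by
        rcases Nat.even_or_odd m with h' | h'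
        · exact h'
        · exact absurd (h'.add_one) (Nat.not_even_iff_odd.2 h)
      have h1 := Subgroup.mul_mem _ hr (ih.1 hm)
      have h2 : s1 p n * s2 p n * c p n ^ m = s0 p n * c p n ^ (m + 1) := by
        have h3 : s0 p n * c p n = s1 p n * s2 p n := by
          unfold c
          rw [← mul_assoc (s0 p n), s0_sq, one_mul]
        rw [pow_succ', ← mul_assoc (s0 p n), h3]
      rwa [h2] at h1

lemma inv_s0 : (s0 p n)⁻¹ = s0 p n := inv_eq_of_mul_eq_one_left s0_sq
lemma inv_s1 : (s1 p n)⁻¹ = s1 p n := inv_eq_of_mul_eq_one_left s1_sq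
lemma inv_s2 : (s2 p n)⁻¹ = s2 p n := inv_eq_of_mul_eq_one_left s2_sq
lemma inv_sz : (sz p n)⁻¹ = sz p n := inv_eq_of_mul_eq_one_left sz_sq

/-- conjugation by a product of two commuting elements -/
lemma conj_aux {A : Type*} [Group A] {a z x y : A} (hx : a⁻¹ * x * a = y) (hzy : z * y = y * z) :
    (a * z)⁻¹ * x * (a * z) = y := by
  have : (a * z)⁻¹ * x * (a * z) = z⁻¹ * (a⁻¹ * x * a) * z := by group
  rw [this, hx, mul_assoc, ← hzy]
  group

/-- The duality is inner. -/
lemma selfDual (hp : 5 ≤ p) (hpo : Odd p) (hn : Odd n) :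
    IsInternallySelfDual (ρ0 p n) (ρ1 p n) (ρ2 p n) := by
  refine ⟨s0 p n * sz p n, ?_, ?_, ?_, ?_⟩
  · have h := (c_pow_mem (n := n) hp (p * n)).2 (hpo.mul hn)
    rwa [c_pow_pn hp hn] at h
  · refine conj_aux ?_ commz1
    unfold ρ0 ρ2
    rw [inv_s0]
    calc s0 p n * (s0 p n * s1 p n * s0 p n) * s0 p n
        = (s0 p n * s0 p n) * s1 p n * (s0 p n * s0 p n) := by group
      _ = s1 p n := by rw [s0_sq, one_mul, mul_one]
  · refine conj_aux ?_ commz2
    unfold ρ1
    rw [inv_s0, comm02 hp, mul_assoc, s0_sq, mul_one]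
  · refine conj_aux ?_ ?_
    · unfold ρ0 ρ2
      rw [inv_s0]
    · unfold ρ0
      calc sz p n * (s0 p n * s1 p n * s0 p n) = (sz p n * s0 p n) * s1 p n * s0 p n := by group
        _ = s0 p n * (sz p n * s1 p n) * s0 p n := by rw [commz0]; group
        _ = s0 p n * s1 p n * (sz p n * s0 p n) := by rw [commz1]; group
        _ = s0 p n * s1 p n * s0 p n * sz p n := by rw [commz0]; group

/-! ### the intersection property -/

/-- elements of a dihedral group -/
lemma dihedral_aux {A : Type*} [Group A] {a b r : A} {q : ℕ} (hq : 2 ≤ q) (ha : a * a = 1)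
    (hb : b * b = 1) (hr : r = a * b) (hrp : r ^ q = 1) {x : A}
    (hx : x ∈ Subgroup.closure ({a, b} : Set A)) :
    ∃ m : ℕ, x = r ^ m ∨ x = r ^ m * b := by
  have ia : a⁻¹ = a := inv_eq_of_mul_eq_one_left ha
  have ib : b⁻¹ = b := inv_eq_of_mul_eq_one_left hb
  have h2r : ∀ m : ℕ, r ^ m * b = b * (r⁻¹) ^ m := by
    intro m
    have h1 : b * r⁻¹ * b⁻¹ = r := by
      rw [hr, mul_inv_rev, ia, ib, ← mul_assoc, hb, one_mul]
    have h2 : (b * r⁻¹ * b⁻¹) ^ m = b * (r⁻¹) ^ m * b⁻¹ := conj_pow
    rw [h1] at h2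
    rw [h2, inv_mul_cancel_right]
  have hinv : r⁻¹ = r ^ (q - 1) := by
    rw [inv_eq_iff_mul_eq_one, ← pow_succ', Nat.sub_add_cancel (by omega)]
    exact hrp
  have h3 : ∀ m : ℕ, b * r ^ m = r ^ ((q - 1) * m) * b := by
    intro m
    rw [h2r, hinv, ← pow_mul]
    have h5 : (q - 1) * ((q - 1) * m) = q * ((q - 2) * m) + m := by
      obtain ⟨t, rfl⟩ : ∃ t, q = t + 2 := ⟨q - 2, by omega⟩
      simp only [Nat.add_sub_cancel, show t + 2 - 1 = t + 1 by omega]
      ring
    have h4 : r ^ ((q - 1) * ((q - 1) * m)) = r ^ m := by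
      rw [h5, pow_add, pow_mul, hrp, one_pow, one_mul]
    rw [h4]
  have step : ∀ y ∈ ({a, b} : Set A), ∀ z : A, (∃ m : ℕ, z = r ^ m ∨ z = r ^ m * b) →
      ∃ m : ℕ, y * z = r ^ m ∨ y * z = r ^ m * b := by
    rintro y hy z ⟨m, hz⟩
    have key2 : ∃ m : ℕ, b * z = r ^ m ∨ b * z = r ^ m * b := by
      rcases hz with rfl | rfl
      · exact ⟨(q - 1) * m, Or.inr (h3 m)⟩
      · refine ⟨(q - 1) * m, Or.inl ?_⟩
        rw [← mul_assoc, h3, mul_assoc, hb, mul_one]
    rcases hy with rfl | rfl
    · obtain ⟨m', h⟩ := key2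
      have h1 : y * z = r * (b * z) := by
        rw [hr, mul_assoc, ← mul_assoc b, hb, one_mul]
      rw [h1]
      refine ⟨m' + 1, ?_⟩
      rcases h with h | h
      · left; rw [h, pow_succ']
      · right; rw [h, pow_succ', mul_assoc]
    · exact key2
  refine Subgroup.closure_induction_left (p := fun x _ => ∃ m : ℕ, x = r ^ m ∨ x = r ^ m * b)
    ?_ ?_ ?_ hx
  · exact ⟨0, Or.inl (by simp)⟩
  · rintro y hy z - hz
    exact step y hy z hz
  · rintro y hy z - hz
    have hy' : y⁻¹ = y := by
      rcases hy with rfl | rfl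
      · exact ia
      · exact ib
    rw [hy']
    exact step y hy z hz

lemma closure_conj_aux {A : Type*} [Group A] {s a b x : A} (hs : s * s = 1)
    (hx : x ∈ Subgroup.closure ({s * a * s, s * b * s} : Set A)) :
    s * x * s ∈ Subgroup.closure ({a, b} : Set A) := by
  refine Subgroup.closure_induction
    (p := fun x _ => s * x * s ∈ Subgroup.closure ({a, b} : Set A)) ?_ ?_ ?_ ?_ hx
  · rintro y hy
    rcases hy with rfl | rfl
    · have : s * (s * a * s) * s = a := by
        calc s * (s * a * s) * s = (s * s) * a * (s * s) := by group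
          _ = a := by rw [hs]; group
      rw [this]
      exact Subgroup.subset_closure (Or.inl rfl)
    · have : s * (s * b * s) * s = b := by
        calc s * (s * b * s) * s = (s * s) * b * (s * s) := by group
          _ = b := by rw [hs]; group
      rw [this]
      exact Subgroup.subset_closure (Or.inr rfl)
  · rw [mul_one, hs]; exact Subgroup.one_mem _
  · intro y z _ _ h1 h2
    have : s * (y * z) * s = (s * y * s) * (s * z * s) := by
      calc s * (y * z) * s = s * y * 1 * z * s := by group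
        _ = s * y * (s * s) * z * s := by rw [hs]
        _ = _ := by group
    rw [this]
    exact Subgroup.mul_mem _ h1 h2
  · intro y _ h1
    have is : s⁻¹ = s := inv_eq_of_mul_eq_one_left hs
    have : s * y⁻¹ * s = (s * y * s)⁻¹ := by
      rw [mul_inv_rev, mul_inv_rev, is, mul_assoc]
    rw [this]
    exact Subgroup.inv_mem _ h1

lemma s2_snd (x : X p n) (h : x.2 = Pi.single 1 1) : (s2 p n x).2 = Pi.single 1 1 := by
  rw [s2_apply]
  funext i
  simp only [f2, h]
  by_cases hi : i = 1
  · subst hi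
    have : (2 : ZMod p) - 1 = 1 := by ring
    rw [this]
  · have e1 : 2 - i ≠ 1 := fun h => hi (by linear_combination -h)
    rw [Pi.single_eq_of_ne e1, Pi.single_eq_of_ne hi]

lemma inter (hp : 5 ≤ p) :
    Subgroup.closure {ρ0 p n, ρ1 p n} ⊓ Subgroup.closure {ρ1 p n, ρ2 p n}
      = Subgroup.closure {ρ1 p n} := by
  have hr12 : ({ρ1 p n, ρ2 p n} : Set (Perm (X p n))) = {s1 p n, s2 p n} := by
    rw [Set.pair_comm]; rfl
  have hrp : (s1 p n * s2 p n) ^ p = 1 := (r_pow_eq_one_iff p).2 dvd_rfl
  apply le_antisymm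
  · rintro x ⟨hx1, hx2⟩
    rw [SetLike.mem_coe] at hx1 hx2
    rw [hr12] at hx2
    have h1 : ρ1 p n = s0 p n * s2 p n * s0 p n := by
      unfold ρ1
      rw [comm02 hp, mul_assoc, s0_sq, mul_one]
    have hx1' : s0 p n * x * s0 p n ∈ Subgroup.closure ({s1 p n, s2 p n} : Set (Perm (X p n))) := by
      refine closure_conj_aux s0_sq ?_
      rw [← h1]
      exact hx1
    obtain ⟨m, hm⟩ := dihedral_aux (q := p) (by omega) s1_sq s2_sq rfl hrp hx1'
    obtain ⟨m', hm'⟩ := dihedral_aux (q := p) (by omega) s1_sq s2_sq rfl hrp hx2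
    -- `x` fixes `f = 0`
    have hfix : (x (0, 0)).2 = 0 := by
      rcases hm' with h | h
      · rw [h, r_pow_apply]; rfl
      · rw [h, Perm.mul_apply, r_pow_apply]
        rfl
    have hx : x = s0 p n * (s0 p n * x * s0 p n) * s0 p n := by
      calc x = (s0 p n * s0 p n) * x * (s0 p n * s0 p n) := by rw [s0_sq]; group
        _ = _ := by group
    set x' := s0 p n * x * s0 p n with hx'
    set y : X p n := s0 p n (0, 0) with hy
    have hy2 : y.2 = Pi.single 1 1 := by
      funext i
      rw [hy, s0_apply]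
      simp only [f0]
      by_cases hi : i = 1
      · subst hi; simp
      · rw [Pi.single_eq_of_ne hi, if_neg hi]; rfl
    have hval : (x' y).2 = fun i => (Pi.single 1 1 : ZMod p → ZMod 2) (i - m) := by
      rcases hm with h | h
      · rw [h, r_pow_apply]
        simp only [hy2]
      · rw [h, Perm.mul_apply, r_pow_apply]
        simp only [s2_snd y hy2]
    have hx0 : x (0, 0) = s0 p n (x' y) := by
      rw [hy, hx', Perm.mul_apply, Perm.mul_apply, ← Perm.mul_apply (s0 p n) (s0 p n), s0_sq,
        Perm.one_apply, ← Perm.mul_apply (s0 p n) (s0 p n), s0_sq, Perm.one_apply]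
    rw [hx0, s0_apply] at hfix
    have h1' := congrFun hfix 1
    simp only [f0, hval, if_true, Pi.zero_apply] at h1'
    have hm0 : (m : ZMod p) = 0 := by
      by_contra hne
      have e1 : (1 : ZMod p) - m ≠ 1 := fun h => hne (by linear_combination -h)
      rw [Pi.single_eq_of_ne e1] at h1'
      exact absurd h1' (by decide)
    have hrm : (s1 p n * s2 p n) ^ m = 1 :=
      (r_pow_eq_one_iff m).2 ((ZMod.natCast_eq_zero_iff m p).1 hm0)
    rw [hrm, one_mul] at hm
    rcases hm with h | h
    · rw [hx, h, mul_one, s0_sq]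
      exact Subgroup.one_mem _
    · rw [hx, h, comm02 hp, mul_assoc, s0_sq, mul_one]
      exact Subgroup.subset_closure rfl
  · refine le_inf (Subgroup.closure_mono ?_) (Subgroup.closure_mono ?_)
    · intro z hz; right; exact hz
    · intro z hz; left; exact hz

lemma orderOf_conj' {A : Type*} [Group A] (a x : A) : orderOf (a * x * a⁻¹) = orderOf x := by
  rw [orderOf_eq_orderOf_iff]
  intro k
  rw [conj_pow, conj_eq_one_iff]

lemma isRegularPolyhedron (hp : 5 ≤ p) :
    IsRegularPolyhedron (ρ0 p n) (ρ1 p n) (ρ2 p n) p p := by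
  refine ⟨?_, orderOf_s2 hp, orderOf_s1 hp, ?_, inter hp, ?_, ?_⟩
  · have : ρ0 p n = s0 p n * s1 p n * (s0 p n)⁻¹ := by rw [inv_s0]; rfl
    rw [this, orderOf_conj', orderOf_s1 hp]
  · unfold ρ0 ρ2
    have h := comm0101 (n := n) hp
    rw [pow_two]
    calc s0 p n * s1 p n * s0 p n * s1 p n * (s0 p n * s1 p n * s0 p n * s1 p n)
        = s0 p n * ((s1 p n * s0 p n * s1 p n) * s0 p n) * (s1 p n * s0 p n * s1 p n) := by group
      _ = s0 p n * (s0 p n * (s1 p n * s0 p n * s1 p n)) * (s1 p n * s0 p n * s1 p n) := by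
          rw [h]
      _ = (s0 p n * s0 p n) * s1 p n * s0 p n * (s1 p n * s1 p n) * s0 p n * s1 p n := by group
      _ = s1 p n * (s0 p n * s0 p n) * s1 p n := by
          rw [s0_sq, s1_sq, one_mul, mul_one, mul_one, mul_assoc (s1 p n), s0_sq, mul_one]
      _ = 1 := by rw [s0_sq, mul_one, s1_sq]
  · have : ρ0 p n * ρ1 p n = s0 p n * (s1 p n * s2 p n) * (s0 p n)⁻¹ := by
      unfold ρ0 ρ1
      rw [inv_s0, mul_assoc (s0 p n * s1 p n), comm02 hp]
      simp only [mul_assoc]
    rw [this, orderOf_conj', orderOf_r]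
  · have : ρ1 p n * ρ2 p n = (s1 p n * s2 p n)⁻¹ := by
      rw [mul_inv_rev, inv_s1, inv_s2]; rfl
    rw [this, orderOf_inv, orderOf_r]

/-! ### the order of the group -/

/-- following the coordinate `0` along the first `m` steps of `c` -/
lemma c_track (hp : 5 ≤ p) (x : X p n) (m : ℕ) (hm2 : 2 ≤ m) (hm : m + 1 ≤ p) :
    ((c p n ^ m) x).1 (m : ZMod p) = 1 - x.1 0 := by
  have h01 := ne01 hp
  have h02 := ne02 hp
  have h12 := ne12 hp
  have hstep : ∀ (y : X p n) (k : ZMod p), (c p n y).1 k =
      if k = 2 then 1 - y.1 (k - 1) else if k = 0 then -1 - y.1 (k - 1) else y.1 (k - 1) := by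
    intro y k
    unfold c
    rw [Perm.mul_apply, r_apply, s0_apply]
    rfl
  induction m, hm2 using Nat.le_induction with
  | base =>
    rw [pow_two, Perm.mul_apply, hstep, if_pos (by norm_num), hstep]
    have e1 : (((2 : ℕ) : ZMod p)) - 1 = 1 := by push_cast; ring
    rw [e1, if_neg h12, if_neg h01.symm, sub_self]
  | succ m hm2 ih =>
    rw [pow_succ', Perm.mul_apply, hstep]
    have e1 : (((m + 1 : ℕ) : ZMod p)) - 1 = (m : ZMod p) := by push_cast; ring
    have n2 : ¬ (((m + 1 : ℕ) : ZMod p) = 2) := by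
      intro h
      have h' : (((m + 1 : ℕ) : ZMod p) = ((2 : ℕ) : ZMod p)) := by rw [h]; norm_num
      rw [ZMod.natCast_eq_natCast_iff', Nat.mod_eq_of_lt (by omega),
        Nat.mod_eq_of_lt (by omega)] at h'
      omega
    have n0 : ¬ (((m + 1 : ℕ) : ZMod p) = 0) := by
      intro h
      rw [ZMod.natCast_eq_zero_iff] at h
      have := Nat.le_of_dvd (by omega) h
      omega
    rw [if_neg n2, if_neg n0, e1]
    exact ih (by omega)

lemma c_pow_p_zero (hp : 5 ≤ p) (x : X p n) : ((c p n ^ p) x).1 0 = -2 + x.1 0 := by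
  have h02 := ne02 hp
  obtain ⟨q, rfl⟩ : ∃ q, p = q + 1 := ⟨p - 1, by omega⟩
  rw [pow_succ', Perm.mul_apply]
  have hstep : ∀ (y : X (q + 1) n), (c (q + 1) n y).1 0 = -1 - y.1 (0 - 1) := by
    intro y
    unfold c
    rw [Perm.mul_apply, r_apply, s0_apply]
    simp only [f0, if_neg h02, if_true]
  rw [hstep]
  have h := c_track hp x q (by omega) le_rfl
  have e1 : (0 : ZMod (q + 1)) - 1 = (q : ZMod (q + 1)) := by
    have : ((q + 1 : ℕ) : ZMod (q + 1)) = 0 := ZMod.natCast_self _
    push_cast at this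
    linear_combination -this
  rw [e1, h]
  ring

/-- The order of the group `Γ p n` is a multiple of `n`. -/
lemma dvd_card (hp : 5 ≤ p) (hn : Odd n) : n ∣ Nat.card (Γ p n) := by
  obtain ⟨v, hv⟩ := c_pow_p (n := n) hp
  have hv0 : v 0 = -2 := by
    have h1 := congrArg (fun y : X p n => y.1 0) (hv 0)
    have h2 := c_pow_p_zero (n := n) hp 0
    simp only [Prod.fst_zero, Pi.zero_apply, add_zero] at h1 h2
    rw [← h1, h2]
  have hmem : c p n ^ (2 * p) ∈ Γ p n := (c_pow_mem hp (2 * p)).1 (even_two_mul p)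
  have hord := Subgroup.orderOf_dvd_natCard (Γ p n) hmem
  refine dvd_trans ?_ hord
  set N := orderOf (c p n ^ (2 * p)) with hN
  have hpow : ((c p n ^ p) ^ (2 * N)) = 1 := by
    rw [← pow_mul]
    have : p * (2 * N) = (2 * p) * N := by ring
    rw [this, pow_mul, hN, pow_orderOf_eq_one]
  have hgen : ∀ m : ℕ, (((c p n ^ p) ^ m) (0 : X p n)).1 0 = m * v 0 := by
    intro m
    induction m with
    | zero => simp
    | succ m ih =>
      rw [pow_succ', Perm.mul_apply, hv]
      simp only [ih]
      push_cast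
      ring
  have h1 := hgen (2 * N)
  rw [hpow, hv0] at h1
  simp only [Perm.one_apply, Prod.fst_zero, Pi.zero_apply] at h1
  have h2 : ((4 * N : ℕ) : ZMod n) = 0 := by
    push_cast at h1 ⊢
    linear_combination h1
  rw [ZMod.natCast_eq_zero_iff] at h2
  have hcop : Nat.Coprime n 4 := by
    have : Nat.Coprime n (2 ^ 2) := Nat.Coprime.pow_right 2 hn.coprime_two_right
    simpa using this
  exact hcop.dvd_of_dvd_mul_left h2

/-- **Main theorem.**  Let `p ≥ 5` be odd.

(1) For every odd `n`, the explicit permutations `ρ0 p n, ρ1 p n, ρ2 p n` of the finite set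
`(ZMod p → ZMod n) × (ZMod p → ZMod 2)` are the distinguished generators of an internally
self-dual regular polyhedron of type `{p,p}`, with finite group `Γ p n` of order divisible by `n`.

(2) There are infinitely many such polyhedra up to isomorphism: there is a sequence of odd
numbers along which the order of the (finite) automorphism group `Γ p n` is strictly increasing;
in particular the groups, and so the polyhedra, are pairwise non-isomorphic. -/
theorem result (p : ℕ) (hp : 5 ≤ p) (hpo : Odd p) :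
    (∀ n : ℕ, Odd n →
      Γ p n = Subgroup.closure {ρ0 p n, ρ1 p n, ρ2 p n} ∧
      Finite (Γ p n) ∧
      IsRegularPolyhedron (ρ0 p n) (ρ1 p n) (ρ2 p n) p p ∧
      IsInternallySelfDual (ρ0 p n) (ρ1 p n) (ρ2 p n) ∧
      n ∣ Nat.card (Γ p n)) ∧
    ∃ ν : ℕ → ℕ, (∀ i, Odd (ν i)) ∧ StrictMono (fun i => Nat.card (Γ p (ν i))) ∧
      ∀ i j, i ≠ j → IsEmpty (Γ p (ν i) ≃* Γ p (ν j)) := by
  have hfin : ∀ n : ℕ, Odd n → Finite (Γ p n) := by
    intro n hn
    have : NeZero p := ⟨by omega⟩
    have : NeZero n := ⟨by rintro rfl; exact absurd hn (by decide)⟩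
    have : Finite (Perm (X p n)) := inferInstance
    infer_instance
  refine ⟨fun n hn => ⟨rfl, hfin n hn, isRegularPolyhedron hp, selfDual hp hpo hn,
    dvd_card hp hn⟩, ?_⟩
  have hpos : ∀ n : ℕ, Odd n → 0 < Nat.card (Γ p n) := by
    intro n hn
    have := hfin n hn
    exact Nat.card_pos
  let ν : ℕ → ℕ := fun i => Nat.rec 1 (fun _ m => 2 * Nat.card (Γ p m) + 1) i
  have hν : ∀ i, Odd (ν i) := by
    intro i
    cases i with
    | zero => exact odd_one
    | succ i => exact odd_two_mul_add_one _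
  have hmono : StrictMono (fun i => Nat.card (Γ p (ν i))) := by
    refine strictMono_nat_of_lt_succ fun i => ?_
    have h1 : ν (i + 1) = 2 * Nat.card (Γ p (ν i)) + 1 := rfl
    have h2 := Nat.le_of_dvd (hpos _ (hν (i + 1))) (dvd_card (n := ν (i + 1)) hp (hν (i + 1)))
    have h3 := hpos _ (hν i)
    show Nat.card (Γ p (ν i)) < Nat.card (Γ p (ν (i + 1)))
    omega
  refine ⟨ν, hν, hmono, fun i j hij => ⟨fun φ => hij ?_⟩⟩
  exact hmono.injective (Nat.card_congr φ.toEquiv)

end Pool.Agent.Results.MP_7f6698_co.InfiniteFamilies
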